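import Pool.Agent.helper59.GF.Spec

set_option autoImplicit false

/-! # gf:LVL (MP_06d6be_co): `mu` is an affine relation between the levels -/

namespace Pool.Agent.GF

open Filter Topology

/-- the product of the linear factors of a set of indices -/
noncomputable def LVL_P (p : ℕ) (S : Finset (Fin p)) : Polynomial ℝ :=
  ∏ q ∈ S, (Polynomial.X - Polynomial.C (((q : ℕ) : ℝ) + 1 / 2))

theorem LVL_deg (p : ℕ) (S : Finset (Fin p)) : (LVL_P p S).natDegree ≤ p := by
  unfold LVL_P
  rw [Polynomial.natDegree_prod_of_monic _ _ fun q _ => Polynomial.monic_X_sub_C _]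
  simp only [Polynomial.natDegree_X_sub_C, Finset.sum_const, smul_eq_mul, mul_one]
  exact (Finset.card_le_univ S).trans (by simp)

theorem LVL_eval (p : ℕ) (S : Finset (Fin p)) (x : ℝ) :
    (LVL_P p S).eval x = ∏ q ∈ S, (x - ((q : ℕ) : ℝ) - 1 / 2) := by
  unfold LVL_P
  rw [Polynomial.eval_prod]
  apply Finset.prod_congr rfl
  intro q _
  simp only [Polynomial.eval_sub, Polynomial.eval_X, Polynomial.eval_C]
  ring

theorem LVL (hDVD : DVD_stmt) : LVL_stmt := by
  intro p s hs
  refine ⟨?_, ?_⟩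
  · have h := hDVD p s hs (LVL_P p Finset.univ) (LVL_deg p _)
    simp only [LVL_eval] at h
    exact h
  · intro hne q
    have h := hDVD p s hs (LVL_P p (Finset.univ.erase q)) (LVL_deg p _)
    simp only [LVL_eval] at h
    rw [← h]
    apply Finset.sum_congr rfl
    intro r _
    have h1 : ell p (s r) = (s r - ((q : ℕ) : ℝ) - 1 / 2) *
        ∏ q' ∈ Finset.univ.erase q, (s r - ((q' : ℕ) : ℝ) - 1 / 2) := by
      unfold ell
      rw [Finset.mul_prod_erase _ (fun q' : Fin p => s r - ((q' : ℕ) : ℝ) - 1 / 2)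
        (Finset.mem_univ q)]
    have h2 : s r - ((q : ℕ) : ℝ) - 1 / 2 ≠ 0 := by
      intro h3
      apply hne r
      rw [h1, h3, zero_mul]
    unfold mu Yl
    rw [h1]
    have h4 : (s r - ((q : ℕ) : ℝ) - 1 / 2) * (1 / (s r - ((q : ℕ) : ℝ) - 1 / 2)) = 1 :=
      mul_one_div_cancel h2
    rw [mul_div_assoc, mul_right_comm, h4, one_mul]

end Pool.Agent.GF
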