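import Pool.Agent.helper59.GF.Spec

set_option autoImplicit false

/-! # gf:MUR (MP_06d6be_co): ratios of the weights for `δ → 0+` -/

namespace Pool.Agent.GF

open Filter Topology

section
variable {p m : ℕ} (I : Fin (p + 2) → Fin (p + 2) × Fin m)

/-- the order of the difference of two nodes -/
def MUR_kk (r r' : Fin (p + 2)) : ℕ :=
  if (I r).1 = (I r').1 then (2 * p + 6) ^ (min (idx (I r)) (idx (I r')) + 1) else 0

/-- the leading coefficient of the difference of two nodes -/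
noncomputable def MUR_cc (r r' : Fin (p + 2)) : ℝ :=
  if (I r).1 = (I r').1 then (if idx (I r) < idx (I r') then 1 else -1)
  else (((I r).1 : ℕ) : ℝ) - (((I r').1 : ℕ) : ℝ)

/-- the difference of two nodes without the power of `δ` -/
noncomputable def MUR_gg (r r' : Fin (p + 2)) (δ : ℝ) : ℝ :=
  (nd p m δ (I r) - nd p m δ (I r')) / δ ^ MUR_kk I r r'

theorem MUR_idx (i i' : Fin (p + 2) × Fin m) (h : i.1 = i'.1) (h' : idx i = idx i') : i = i' := by
  unfold idx at h'
  rw [h] at h'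
  exact Prod.ext h (Fin.ext (Nat.add_left_cancel h'))

theorem MUR_pow (k : ℕ) (hk : k ≠ 0) :
    Tendsto (fun δ : ℝ => δ ^ k) (𝓝[>] 0) (𝓝 0) := by
  have h : Tendsto (fun δ : ℝ => δ ^ k) (𝓝 0) (𝓝 ((0 : ℝ) ^ k)) :=
    (continuous_pow k).tendsto 0
  rw [zero_pow hk] at h
  exact h.mono_left nhdsWithin_le_nhds

theorem MUR_nd (i : Fin (p + 2) × Fin m) :
    Tendsto (fun δ => nd p m δ i) (𝓝[>] 0) (𝓝 (((i.1 : ℕ) : ℝ))) := by
  have h := (MUR_pow ((2 * p + 6) ^ ((i.1 : ℕ) * m + (i.2 : ℕ) + 1)) (by positivity)).const_add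
    (((i.1 : ℕ) : ℝ))
  rw [add_zero] at h
  exact h

theorem MUR_sub (r r' : Fin (p + 2)) (h : (I r).1 = (I r').1) (δ : ℝ) :
    nd p m δ (I r) - nd p m δ (I r') =
      δ ^ ((2 * p + 6) ^ (idx (I r) + 1)) - δ ^ ((2 * p + 6) ^ (idx (I r') + 1)) := by
  unfold nd idx
  rw [h]
  ring

theorem MUR_lt (a b : ℕ) (h : a < b) :
    (2 * p + 6) ^ (a + 1) < (2 * p + 6) ^ (b + 1) :=
  Nat.pow_lt_pow_right (by omega) (by omega)

theorem MUR_lim1 (a b : ℕ) (h : a < b) :
    Tendsto (fun δ : ℝ => (δ ^ ((2 * p + 6) ^ (a + 1)) - δ ^ ((2 * p + 6) ^ (b + 1))) /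
      δ ^ ((2 * p + 6) ^ (a + 1))) (𝓝[>] 0) (𝓝 1) := by
  have hlt := MUR_lt (p := p) a b h
  have h1 := (MUR_pow ((2 * p + 6) ^ (b + 1) - (2 * p + 6) ^ (a + 1)) (by omega)).const_sub 1
  rw [sub_zero] at h1
  refine h1.congr' ?_
  filter_upwards [self_mem_nhdsWithin] with δ hδ
  have hδ0 : δ ≠ 0 := ne_of_gt hδ
  have hp : δ ^ ((2 * p + 6) ^ (a + 1)) ≠ 0 := pow_ne_zero _ hδ0
  rw [eq_div_iff hp, sub_mul, one_mul, ← pow_add]
  congr 2
  omega

theorem MUR_gg_lim (hI : Function.Injective I) (r r' : Fin (p + 2)) (hrr : r ≠ r') :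
    Tendsto (MUR_gg I r r') (𝓝[>] 0) (𝓝 (MUR_cc I r r')) := by
  by_cases h : (I r).1 = (I r').1
  · have hne : idx (I r) ≠ idx (I r') := fun h2 => hrr (hI (MUR_idx _ _ h h2))
    unfold MUR_gg MUR_kk MUR_cc
    rw [if_pos h, if_pos h]
    by_cases hlt : idx (I r) < idx (I r')
    · rw [if_pos hlt, min_eq_left hlt.le]
      refine (MUR_lim1 (p := p) _ _ hlt).congr ?_
      intro δ
      rw [MUR_sub I r r' h]
    · have hlt' : idx (I r') < idx (I r) := by omega
      rw [if_neg hlt, min_eq_right hlt'.le]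
      refine (MUR_lim1 (p := p) _ _ hlt').neg.congr ?_
      intro δ
      rw [MUR_sub I r r' h, ← neg_div, neg_sub]
  · unfold MUR_gg MUR_kk MUR_cc
    rw [if_neg h, if_neg h]
    simp only [pow_zero, div_one]
    exact (MUR_nd (I r)).sub (MUR_nd (I r'))

theorem MUR_cc_ne (r r' : Fin (p + 2)) : MUR_cc I r r' ≠ 0 := by
  unfold MUR_cc
  by_cases h : (I r).1 = (I r').1
  · rw [if_pos h]
    split_ifs <;> norm_num
  · rw [if_neg h]
    intro h2
    apply h
    rw [sub_eq_zero] at h2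
    exact Fin.ext (by exact_mod_cast h2)

theorem MUR_ell_ne (p c : ℕ) : ell p (c : ℝ) ≠ 0 := by
  unfold ell
  rw [Finset.prod_ne_zero_iff]
  intro q _ h
  have h1 : (2 * (c : ℝ)) = 2 * ((q : ℕ) : ℝ) + 1 := by linarith
  have h2 : 2 * c = 2 * (q : ℕ) + 1 := by exact_mod_cast h1
  omega

theorem MUR_ell_cont (p : ℕ) : Continuous (ell p) := by
  unfold ell
  exact continuous_finsetProd _ fun q _ => by fun_prop

/-- the order of the product of the differences -/
def MUR_K (r : Fin (p + 2)) : ℕ := ∑ r' ∈ Finset.univ.erase r, MUR_kk I r r'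

/-- the leading coefficient of `mu` -/
noncomputable def MUR_L (r : Fin (p + 2)) : ℝ :=
  ell p (((I r).1 : ℕ) : ℝ) / ∏ r' ∈ Finset.univ.erase r, MUR_cc I r r'

/-- `mu` without the power of `δ` -/
noncomputable def MUR_M (r : Fin (p + 2)) (δ : ℝ) : ℝ :=
  ell p (nd p m δ (I r)) / ∏ r' ∈ Finset.univ.erase r, MUR_gg I r r' δ

theorem MUR_L_ne (r : Fin (p + 2)) : MUR_L I r ≠ 0 := by
  unfold MUR_L
  apply div_ne_zero (MUR_ell_ne _ _)
  rw [Finset.prod_ne_zero_iff]
  exact fun r' _ => MUR_cc_ne I r r'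

theorem MUR_M_lim (hI : Function.Injective I) (r : Fin (p + 2)) :
    Tendsto (MUR_M I r) (𝓝[>] 0) (𝓝 (MUR_L I r)) := by
  unfold MUR_M MUR_L
  apply Tendsto.div
  · exact ((MUR_ell_cont p).tendsto _).comp (MUR_nd (I r))
  · apply tendsto_finsetProd
    intro r' hr'
    exact MUR_gg_lim I hI r r' (Finset.ne_of_mem_erase hr').symm
  · rw [Finset.prod_ne_zero_iff]
    exact fun r' _ => MUR_cc_ne I r r'

theorem MUR_mu (r : Fin (p + 2)) (δ : ℝ) (hδ : 0 < δ) :
    mu p (nd p m δ ∘ I) r = MUR_M I r δ / δ ^ MUR_K I r := by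
  have h1 : ∏ r' ∈ Finset.univ.erase r, ((nd p m δ ∘ I) r - (nd p m δ ∘ I) r') =
      (∏ r' ∈ Finset.univ.erase r, MUR_gg I r r' δ) * δ ^ MUR_K I r := by
    unfold MUR_K
    rw [← Finset.prod_pow_eq_pow_sum, ← Finset.prod_mul_distrib]
    apply Finset.prod_congr rfl
    intro r' _
    unfold MUR_gg
    rw [div_mul_cancel₀ _ (pow_ne_zero _ hδ.ne')]
    rfl
  unfold mu MUR_M
  rw [h1, div_div]
  rfl

end

theorem MUR : MUR_stmt := by
  intro p m I r₀ r₁ hI h01 hcl hidx hother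
  have hM := MUR_M_lim I hI
  have hL := MUR_L_ne I
  have h10 : r₁ ∈ Finset.univ.erase r₀ := Finset.mem_erase.2 ⟨h01.symm, Finset.mem_univ _⟩
  have h01' : r₀ ∈ Finset.univ.erase r₁ := Finset.mem_erase.2 ⟨h01, Finset.mem_univ _⟩
  have hev : ∀ᶠ δ in 𝓝[>] (0 : ℝ), MUR_M I r₀ δ ≠ 0 := (hM r₀).eventually_ne (hL r₀)
  have hpos : ∀ᶠ δ in 𝓝[>] (0 : ℝ), 0 < δ := by
    filter_upwards [self_mem_nhdsWithin] with δ hδ using hδ
  -- pairs with a third index
  have hthird : ∀ r', r' ≠ r₀ → r' ≠ r₁ → (I r₀).1 = (I r').1 → idx (I r') < idx (I r₀) := by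
    intro r' h0 h1 hc
    rcases hother r₀ r' h0.symm hc with h | h | h
    · exact absurd h.2 h1
    · exact absurd h.1 h01
    · rcases min_lt_iff.1 h with h | h
      · exact absurd h (lt_irrefl _)
      · exact h
  refine ⟨?_, ?_, ?_⟩
  · filter_upwards [hev, hpos] with δ h1 h2
    rw [MUR_mu I r₀ δ h2]
    exact div_ne_zero h1 (pow_ne_zero _ h2.ne')
  · -- r₁
    have hset : (Finset.univ.erase r₀).erase r₁ = (Finset.univ.erase r₁).erase r₀ := by
      ext z; simp only [Finset.mem_erase, Finset.mem_univ, and_true]; tauto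
    have hkk : ∀ r' ∈ (Finset.univ.erase r₁).erase r₀, MUR_kk I r₀ r' = MUR_kk I r₁ r' := by
      intro r' hr'
      have h0 : r' ≠ r₀ := (Finset.mem_erase.1 hr').1
      have h1 : r' ≠ r₁ := (Finset.mem_erase.1 (Finset.mem_erase.1 hr').2).1
      unfold MUR_kk
      rw [← hcl]
      by_cases hc : (I r₀).1 = (I r').1
      · have h3 := hthird r' h0 h1 hc
        rw [if_pos hc, if_pos hc, min_eq_right h3.le, min_eq_right (h3.trans hidx).le]
      · rw [if_neg hc, if_neg hc]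
    have hcc : ∀ r' ∈ (Finset.univ.erase r₁).erase r₀, MUR_cc I r₀ r' = MUR_cc I r₁ r' := by
      intro r' hr'
      have h0 : r' ≠ r₀ := (Finset.mem_erase.1 hr').1
      have h1 : r' ≠ r₁ := (Finset.mem_erase.1 (Finset.mem_erase.1 hr').2).1
      unfold MUR_cc
      rw [← hcl]
      by_cases hc : (I r₀).1 = (I r').1
      · have h3 := hthird r' h0 h1 hc
        rw [if_pos hc, if_pos hc, if_neg (by omega), if_neg (by omega)]
      · rw [if_neg hc, if_neg hc]
    have hK : MUR_K I r₀ = MUR_K I r₁ := by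
      unfold MUR_K
      rw [← Finset.add_sum_erase _ _ h10, ← Finset.add_sum_erase _ _ h01', hset]
      congr 1
      · unfold MUR_kk
        rw [if_pos hcl, if_pos hcl.symm, min_comm]
      · exact Finset.sum_congr rfl hkk
    have hC : ∏ r' ∈ Finset.univ.erase r₀, MUR_cc I r₀ r' =
        -∏ r' ∈ Finset.univ.erase r₁, MUR_cc I r₁ r' := by
      rw [← Finset.mul_prod_erase _ _ h10, ← Finset.mul_prod_erase _ _ h01', hset,
        Finset.prod_congr rfl hcc]
      have e1 : MUR_cc I r₀ r₁ = 1 := by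
        unfold MUR_cc; rw [if_pos hcl, if_pos hidx]
      have e2 : MUR_cc I r₁ r₀ = -1 := by
        unfold MUR_cc; rw [if_pos hcl.symm, if_neg (by omega)]
      rw [e1, e2]
      ring
    have hLL : MUR_L I r₁ / MUR_L I r₀ = -1 := by
      have hC1 : ∏ r' ∈ Finset.univ.erase r₁, MUR_cc I r₁ r' ≠ 0 := by
        rw [Finset.prod_ne_zero_iff]
        exact fun r' _ => MUR_cc_ne I r₁ r'
      have he := MUR_ell_ne p ((I r₁).1 : ℕ)
      unfold MUR_L
      rw [hC, hcl]
      field_simp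
    have hlim := (hM r₁).div (hM r₀) (hL r₀)
    rw [hLL] at hlim
    refine hlim.congr' ?_
    filter_upwards [hev, hpos] with δ h1 h2
    rw [MUR_mu I r₀ δ h2, MUR_mu I r₁ δ h2, hK]
    have h3 : δ ^ MUR_K I r₁ ≠ 0 := pow_ne_zero _ h2.ne'
    rw [div_div_div_cancel_right₀ h3]
    rfl
  · intro r hr0 hr1
    have hK : MUR_K I r < MUR_K I r₀ := by
      have e1 : MUR_K I r ≤ (p + 1) * (2 * p + 6) ^ idx (I r₀) := by
        unfold MUR_K
        have h1 : ∀ r' ∈ Finset.univ.erase r, MUR_kk I r r' ≤ (2 * p + 6) ^ idx (I r₀) := by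
          intro r' hr'
          have hrr : r ≠ r' := (Finset.ne_of_mem_erase hr').symm
          unfold MUR_kk
          by_cases hc : (I r).1 = (I r').1
          · rw [if_pos hc]
            apply Nat.pow_le_pow_right (by omega)
            rcases hother r r' hrr hc with h | h | h
            · exact absurd h.1 hr0
            · exact absurd h.1 hr1
            · omega
          · rw [if_neg hc]; exact Nat.zero_le _
        have h2 := Finset.sum_le_card_nsmul _ _ _ h1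
        rw [Finset.card_erase_of_mem (Finset.mem_univ _), Finset.card_univ, Fintype.card_fin,
          smul_eq_mul] at h2
        exact h2
      have e2 : (2 * p + 6) ^ (idx (I r₀) + 1) ≤ MUR_K I r₀ := by
        unfold MUR_K
        have h1 : MUR_kk I r₀ r₁ = (2 * p + 6) ^ (idx (I r₀) + 1) := by
          unfold MUR_kk
          rw [if_pos hcl, min_eq_left hidx.le]
        rw [← h1]
        exact Finset.single_le_sum (f := fun r' => MUR_kk I r₀ r') (fun _ _ => Nat.zero_le _) h10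
      have e3 : (p + 1) * (2 * p + 6) ^ idx (I r₀) < (2 * p + 6) ^ (idx (I r₀) + 1) := by
        rw [pow_succ, mul_comm ((2 * p + 6) ^ idx (I r₀))]
        exact Nat.mul_lt_mul_of_pos_right (by omega) (by positivity)
      omega
    have hlim := ((hM r).div (hM r₀) (hL r₀)).mul
      (MUR_pow (MUR_K I r₀ - MUR_K I r) (by omega))
    rw [mul_zero] at hlim
    refine hlim.congr' ?_
    filter_upwards [hev, hpos] with δ h1 h2
    rw [MUR_mu I r₀ δ h2, MUR_mu I r δ h2]
    have h3 : δ ^ MUR_K I r ≠ 0 := pow_ne_zero _ h2.ne'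
    have h4 : δ ^ MUR_K I r₀ = δ ^ MUR_K I r * δ ^ (MUR_K I r₀ - MUR_K I r) := by
      rw [← pow_add]; congr 1; omega
    have h5 : δ ^ (MUR_K I r₀ - MUR_K I r) ≠ 0 := pow_ne_zero _ h2.ne'
    rw [h4]
    simp only [Pi.div_apply]
    field_simp

end Pool.Agent.GF
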