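import Pool.Agent.helper59.GF.Spec
import Pool.Agent.helper76.GF.MUR

set_option autoImplicit false

/-! # gf:NDE (MP_06d6be_co): the nodes are different and avoid finite sets -/

namespace Pool.Agent.GF

open Filter Topology

theorem NDE_ne (p m : ℕ) (i i' : Fin (p + 2) × Fin m) (h : i ≠ i') :
    ∀ᶠ δ in 𝓝[>] (0 : ℝ), nd p m δ i ≠ nd p m δ i' := by
  by_cases hc : i.1 = i'.1
  · have hne : idx i ≠ idx i' := fun h2 => h (MUR_idx _ _ hc h2)
    have h1 : ∀ᶠ δ in 𝓝[>] (0 : ℝ), δ < 1 :=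
      nhdsWithin_le_nhds (Iio_mem_nhds one_pos)
    filter_upwards [self_mem_nhdsWithin, h1] with δ hδ hδ1 heq
    have hδ0 : 0 < δ := hδ
    unfold nd at heq
    rw [hc] at heq
    have h3 : δ ^ ((2 * p + 6) ^ (((i'.1 : ℕ)) * m + (i.2 : ℕ) + 1)) =
        δ ^ ((2 * p + 6) ^ ((i'.1 : ℕ) * m + (i'.2 : ℕ) + 1)) := by
      linarith
    have h4 := pow_right_injective₀ hδ0 hδ1.ne h3
    have h5 := Nat.pow_right_injective (by omega : 2 ≤ 2 * p + 6) h4
    apply hne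
    unfold idx
    rw [hc]
    omega
  · have h1 : Tendsto (fun δ => nd p m δ i - nd p m δ i') (𝓝[>] 0)
        (𝓝 (((i.1 : ℕ) : ℝ) - ((i'.1 : ℕ) : ℝ))) := (MUR_nd i).sub (MUR_nd i')
    have h2 : ((i.1 : ℕ) : ℝ) - ((i'.1 : ℕ) : ℝ) ≠ 0 := by
      intro h3
      apply hc
      rw [sub_eq_zero] at h3
      exact Fin.ext (by exact_mod_cast h3)
    filter_upwards [h1.eventually_ne h2] with δ hδ heq
    exact hδ (by rw [heq, sub_self])

theorem NDE_z (p m : ℕ) (i : Fin (p + 2) × Fin m) (z : ℝ) :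
    ∀ᶠ δ in 𝓝[>] (0 : ℝ), nd p m δ i ≠ z := by
  by_cases hz : z = ((i.1 : ℕ) : ℝ)
  · filter_upwards [self_mem_nhdsWithin] with δ hδ heq
    have hδ0 : 0 < δ := hδ
    unfold nd at heq
    rw [hz] at heq
    have : 0 < δ ^ ((2 * p + 6) ^ ((i.1 : ℕ) * m + (i.2 : ℕ) + 1)) := pow_pos hδ0 _
    linarith
  · exact (MUR_nd i).eventually_ne (Ne.symm hz)

theorem NDE : NDE_stmt := by
  intro p m Z hZ
  have h1 : ∀ᶠ δ in 𝓝[>] (0 : ℝ), ∀ i i' : Fin (p + 2) × Fin m, i ≠ i' →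
      nd p m δ i ≠ nd p m δ i' := by
    rw [eventually_all]
    intro i
    rw [eventually_all]
    intro i'
    by_cases h : i = i'
    · exact Eventually.of_forall fun δ h' => absurd h h'
    · filter_upwards [NDE_ne p m i i' h] with δ hδ _ using hδ
  have h2 : ∀ᶠ δ in 𝓝[>] (0 : ℝ), ∀ i : Fin (p + 2) × Fin m, ∀ z ∈ Z, nd p m δ i ≠ z := by
    rw [eventually_all]
    intro i
    rw [eventually_all_finite hZ]
    intro z _
    exact NDE_z p m i z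
  have h3 : ∀ᶠ δ in 𝓝[>] (0 : ℝ), ∀ i : Fin (p + 2) × Fin m, ell p (nd p m δ i) ≠ 0 := by
    rw [eventually_all]
    intro i
    have h4 : Tendsto (fun δ => ell p (nd p m δ i)) (𝓝[>] 0) (𝓝 (ell p ((i.1 : ℕ) : ℝ))) :=
      ((MUR_ell_cont p).tendsto _).comp (MUR_nd i)
    exact h4.eventually_ne (MUR_ell_ne p _)
  filter_upwards [h1, h2, h3] with δ g1 g2 g3
  refine ⟨?_, fun i => ⟨fun hi => g2 i _ hi rfl, g3 i⟩⟩
  intro i i' h
  by_contra hne
  exact g1 i i' hne h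

end Pool.Agent.GF
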